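import Pool.Agent.RS.StmtsG

/-!
# Squad RS, row PRD: products
-/

set_option autoImplicit false

namespace Pool.Agent.RS.H44

open MvPolynomial

theorem map_pt {R S : Type*} [CommRing R] [CommRing S] (φ : R →+* S) {t : ℕ} (n : ℕ)
    (w z : Fin t → R) (i : ℕ) : φ (Pool.Agent.UO.point n w z i) =
      Pool.Agent.UO.point n (fun j => φ (w j)) (fun j => φ (z j)) i := by
  unfold Pool.Agent.UO.point
  split_ifs with h
  · simp only [map_sum, map_mul, map_prod, map_sub, map_natCast]
  · exact map_zero φ

theorem prd (hit : HitStmt) : PrdStmt := by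
  intro E _ _ k d
  obtain ⟨t0, h0⟩ := hit E k d
  refine ⟨t0, ?_⟩
  intro n t ht S hS hne
  -- the universal point
  let P : ℕ → MvPolynomial (Fin t ⊕ Fin t) E :=
    Pool.Agent.UO.point n (fun j => X (Sum.inl j)) (fun j => X (Sum.inr j))
  have hev : ∀ (y : Fin t ⊕ Fin t → E) (F : MvPolynomial ℕ E), eval y (aeval P F) =
      eval (Pool.Agent.UO.point n (fun j => y (Sum.inl j)) (fun j => y (Sum.inr j))) F := by
    intro y F
    induction F using MvPolynomial.induction_on with
    | C a => simp
    | add p q hp hq => rw [map_add, map_add, map_add, hp, hq]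
    | mul_X p i hp =>
      rw [map_mul, map_mul, map_mul, hp, aeval_X, eval_X]
      congr 1
      show eval y (Pool.Agent.UO.point n _ _ i) = _
      rw [map_pt (eval y)]
      simp only [eval_X]
  have hprod : ∀ S : List (MvPolynomial ℕ E), (∀ F ∈ S, IsComp E k d n F) → S.prod ≠ 0 →
      aeval P S.prod ≠ 0 := by
    intro S
    induction S with
    | nil =>
      intro _ _
      rw [List.prod_nil, map_one]
      exact one_ne_zero
    | cons F S ih =>
      intro hc hn
      rw [List.prod_cons] at hn
      rw [List.prod_cons, map_mul]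
      apply mul_ne_zero
      · obtain ⟨w, z, hwz⟩ := h0 n t ht F (hc F (List.mem_cons_self)) (left_ne_zero_of_mul hn)
        intro hz
        apply hwz
        have h1 := hev (Sum.elim w z) F
        rw [hz, map_zero] at h1
        exact h1.symm
      · exact ih (fun G hG => hc G (List.mem_cons_of_mem _ hG)) (right_ne_zero_of_mul hn)
  have h1 := hprod S hS hne
  have h2 : ∃ y : Fin t ⊕ Fin t → E, eval y (aeval P S.prod) ≠ 0 := by
    by_contra hcon
    push Not at hcon
    apply h1
    apply MvPolynomial.funext
    intro y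
    rw [hcon y, map_zero]
  obtain ⟨y, hy⟩ := h2
  rw [hev y] at hy
  exact ⟨_, _, hy⟩

end Pool.Agent.RS.H44
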